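import Pool.Agent.W207.PR.Stmts

/-! # Project PR, part BLK: Montgomery's theorem for a block -/

set_option autoImplicit false

open Complex Filter Topology Set MeasureTheory
open scoped BigOperators

namespace Pool.Agent.W806.PR

open W207.PR

theorem ct_eq (ψ : ℝ → ℝ) : ct ψ = W201FW.tr ψ := rfl

theorem blk : S_BLK := by
  intro hRH ψ hψ
  obtain ⟨μ, hμ, hμ1, hz⟩ := hψ.supp
  have hpi := Real.pi_pos
  have hcs : HasCompactSupport ψ := by
    refine HasCompactSupport.intro (isCompact_Icc : IsCompact (Set.Icc (-μ) μ)) fun x hx => ?_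
    apply hz
    by_contra hlt
    push Not at hlt
    exact hx (abs_le.1 hlt.le)
  have hcont : Continuous ψ := (hψ.smooth 0).continuous
  obtain ⟨K, hK⟩ := ContDiff.lipschitzWith_of_hasCompactSupport hcs (hψ.smooth 1)
    (by norm_num)
  have hlip : ∀ x y, |ψ x - ψ y| ≤ (K : ℝ) * |x - y| := fun x y => by
    have := hK.dist_le_mul x y
    simpa [Real.dist_eq] using this
  have hint : Integrable ψ := hcont.integrable_of_hasCompactSupport hcs
  have hsup : ∀ g : ℝ → ℝ, ∫ α in (-μ)..μ, ψ α * g α = ∫ α : ℝ, ψ α * g α := by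
    intro g
    apply intervalIntegral.integral_eq_integral_of_support_subset
    intro x hx
    have h1 : ψ x ≠ 0 := left_ne_zero_of_mul hx
    have h2 : |x| < μ := by
      by_contra hge
      push Not at hge
      exact h1 (hz x hge)
    exact ⟨(abs_lt.1 h2).1, (abs_lt.1 h2).2.le⟩
  have hMM : ψ 0 + ∫ α in (-μ)..μ, |α| * ψ α = MM ψ := by
    unfold MM
    congr 1
    have h1 := hsup (fun α => |α|)
    have h2 : ∫ α in (-μ)..μ, |α| * ψ α = ∫ α in (-μ)..μ, ψ α * |α| :=
      intervalIntegral.integral_congr fun α _ => mul_comm _ _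
    have h3 : ∫ α : ℝ, |α| * ψ α = ∫ α : ℝ, ψ α * |α| := by
      congr 1
      funext α
      exact mul_comm _ _
    rw [h2, h3, h1]
  rw [Metric.tendsto_atTop]
  intro ε hε
  obtain ⟨T0, hT0, h⟩ := W201FW.det_psi hRH μ (ε / 2) hμ hμ1 (by positivity) ψ K hlip hz
  refine ⟨max T0 (4 * (|MM ψ| + 1) / ε), fun V hV => ?_⟩
  have hVT : T0 ≤ V := (le_max_left _ _).trans hV
  have hV2 : 4 * (|MM ψ| + 1) / ε ≤ V := (le_max_right _ _).trans hV
  have hV10 : 10 ≤ V := hT0.trans hVT
  have hVpos : 0 < V := by linarith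
  have hL : 0 < Real.log V := Real.log_pos (by linarith)
  have hX : 0 < X V := by unfold X; positivity
  have h1 := h V hVT
  rw [hMM, hsup, (W201FW.int_tr hRH (by linarith : (1 : ℝ) ≤ V + 1) hint (Real.log V)
    (B := 2 * V - 1)).2, ← ct_eq] at h1
  set S := W201FW.SS (ct ψ) (V + 1) (2 * V - 1) (Real.log V) with hS
  have hM' : (2 * V - 1 - (V + 1)) * Real.log V / (2 * Real.pi) = (1 - 2 / V) * X V := by
    unfold X
    field_simp
    ring
  rw [hM'] at h1
  have h2V : 0 < 2 / V := by positivity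
  have h2V1 : 2 / V ≤ 1 := by rw [div_le_one hVpos]; linarith
  have h3 : |S - X V * MM ψ| ≤ ε / 2 * X V + 2 / V * X V * |MM ψ| := by
    have e : S - X V * MM ψ = (S - (1 - 2 / V) * X V * MM ψ) - 2 / V * X V * MM ψ := by ring
    rw [e]
    refine (abs_sub _ _).trans (add_le_add (h1.trans ?_) ?_)
    · apply mul_le_mul_of_nonneg_left _ (by positivity)
      nlinarith
    · rw [abs_mul, abs_of_pos (by positivity : 0 < 2 / V * X V)]
  have h4 : 2 / V * |MM ψ| < ε / 2 := by
    rw [div_le_iff₀ hε] at hV2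
    rw [div_mul_eq_mul_div, div_lt_iff₀ hVpos]
    linarith [abs_nonneg (MM ψ)]
  rw [Real.dist_eq]
  have e : S / X V - MM ψ = (S - X V * MM ψ) / X V := by field_simp
  rw [e, abs_div, abs_of_pos hX, div_lt_iff₀ hX]
  calc |S - X V * MM ψ| ≤ ε / 2 * X V + 2 / V * X V * |MM ψ| := h3
    _ = (ε / 2 + 2 / V * |MM ψ|) * X V := by ring
    _ < ε * X V := by
      apply mul_lt_mul_of_pos_right _ hX
      linarith

end Pool.Agent.W806.PR
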